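import Pool.Agent.Work.MP_f25c59_an.Cp.Cantor

set_option autoImplicit false

namespace Pool.Agent.Results.MP_f25c59_an.CantorFailsAP

open Pool.Agent.Work.MP_f25c59_an

/-- There is a pointed metric space `M`, homeomorphic to the Cantor set, such that for every
`0 < p ≤ 1` the Lipschitz free `p`-space over `M` exists and (every model of it) fails the
approximation property. -/
theorem result : ∃ (M : Type) (_ : MetricSpace M) (o : M), Nonempty (M ≃ₜ cantorSet) ∧
    ∀ p : ℝ, 0 < p → p ≤ 1 →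
      (∃ (Y : Type) (_ : AddCommGroup Y) (_ : Module ℝ Y) (N : Y → ℝ) (δ : M → Y),
        IsFree p o N δ) ∧
      ∀ (Y : Type) [AddCommGroup Y] [Module ℝ Y] (N : Y → ℝ) (δ : M → Y),
        IsFree p o N δ → ¬ HasAP N := by
  obtain ⟨D⟩ := davie_exists
  obtain ⟨M, inst, o, h1, h2⟩ := cp_cantor D
  exact ⟨M, inst, o, h1, fun p hp hp1 => ⟨exists_free hp hp1 o, h2 p hp hp1⟩⟩

end Pool.Agent.Results.MP_f25c59_an.CantorFailsAP
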