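import Pool.Agent.Work.MP_f25c59_an.Hedge.Bridge

set_option autoImplicit false

namespace Pool.Agent.Results.MP_f25c59_an.ProperMAP

open Pool.Agent.Work.MP_f25c59_an Pool.Agent.Work.MP_f25c59_an.Hedge

/-- For every `0 < p ≤ 1` and every countable proper pointed metric space `M`, the Lipschitz free
`p`-space over `M` exists and (every model of it) has the metric approximation property. -/
theorem result (p : ℝ) (hp : 0 < p) (hp1 : p ≤ 1) (M : Type) [MetricSpace M] [ProperSpace M]
    [Countable M] (o : M) :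
    (∃ (Y : Type) (_ : AddCommGroup Y) (_ : Module ℝ Y) (N : Y → ℝ) (δ : M → Y),
      IsFree p o N δ) ∧
    ∀ (Y : Type) [AddCommGroup Y] [Module ℝ Y] (N : Y → ℝ) (δ : M → Y),
      IsFree p o N δ → HasMAP N :=
  ⟨exists_free hp hp1 o, fun _ _ _ _ _ h => hasMAP_of_proper hp h⟩

end Pool.Agent.Results.MP_f25c59_an.ProperMAP
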